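import Pool.Agent.N869.GK.L.Stm

/-!
# Project GK (helper869): maximal unlinked sets are cosets of self-dual groups
-/

set_option autoImplicit false
set_option linter.unusedVariables false

open scoped Classical

namespace Pool.Agent.N286.GK

open Finset Pool.Agent.N869.GK

variable {ι : Type} [Fintype ι]

/-- the space of the decorations of `B` -/
abbrev Mb (B : Finset ι) : Type := {x // x ∈ B} → V × V

/-- the quadratic form -/
def q (B : Finset ι) (η : Mb B) : ZMod 2 := ∑ x, om (η x).2 (η x).1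

/-- the bilinear form -/
noncomputable def b (B : Finset ι) : LinearMap.BilinForm (ZMod 2) (Mb B) :=
  LinearMap.mk₂ (ZMod 2) (fun η η' => ∑ x, (om (η x).2 (η' x).1 + om (η' x).2 (η x).1))
    (by
      intro x y z
      rw [← sum_add_distrib]
      refine sum_congr rfl fun i _ => ?_
      simp only [om, Pi.add_apply, Prod.fst_add, Prod.snd_add]
      ring)
    (by
      intro c x z
      rw [smul_eq_mul, mul_sum]
      refine sum_congr rfl fun i _ => ?_
      simp only [om, Pi.smul_apply, Prod.smul_fst, Prod.smul_snd, smul_eq_mul]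
      ring)
    (by
      intro x y z
      rw [← sum_add_distrib]
      refine sum_congr rfl fun i _ => ?_
      simp only [om, Pi.add_apply, Prod.fst_add, Prod.snd_add]
      ring)
    (by
      intro c x z
      rw [smul_eq_mul, mul_sum]
      refine sum_congr rfl fun i _ => ?_
      simp only [om, Pi.smul_apply, Prod.smul_fst, Prod.smul_snd, smul_eq_mul]
      ring)

lemma b_apply (B : Finset ι) (η η' : Mb B) :
    b B η η' = ∑ x, (om (η x).2 (η' x).1 + om (η' x).2 (η x).1) := rfl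

lemma q_add (B : Finset ι) (η η' : Mb B) : q B (η + η') = q B η + q B η' + b B η η' := by
  rw [b_apply, q, q, q, ← sum_add_distrib, ← sum_add_distrib]
  refine sum_congr rfl fun i _ => ?_
  simp only [om, Pi.add_apply, Prod.fst_add, Prod.snd_add]
  ring

lemma q_smul (B : Finset ι) (c : ZMod 2) (η : Mb B) : q B (c • η) = c * c * q B η := by
  rw [q, q, mul_sum]
  refine sum_congr rfl fun i _ => ?_
  simp only [om, Pi.smul_apply, Prod.smul_fst, Prod.smul_snd, smul_eq_mul]
  ring

lemma b_ker (B : Finset ι) : (b B).ker = ⊥ := by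
  rw [LinearMap.ker_eq_bot']
  intro η h
  have h1 : ∀ η' : Mb B, b B η η' = 0 := fun η' => by rw [h]; rfl
  have key : ∀ (x : {x // x ∈ B}) (p : V × V), om (η x).2 p.1 + om p.2 (η x).1 = 0 := by
    intro x p
    have h2 := h1 (Pi.single x p)
    rw [b_apply, Finset.sum_eq_single x] at h2
    · simpa using h2
    · intro y _ hy
      rw [Pi.single_eq_of_ne hy]
      simp [om]
    · intro h3
      exact absurd (mem_univ _) h3
  funext x
  refine Prod.ext ?_ ?_
  · funext i
    have e0 := key x (0, ![1, 0])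
    have e1 := key x (0, ![0, 1])
    fin_cases i
    · simpa [om] using e1
    · simpa [om] using e0
  · funext i
    have e0 := key x (![1, 0], 0)
    have e1 := key x (![0, 1], 0)
    fin_cases i
    · simpa [om] using e1
    · simpa [om] using e0

/-- the restriction -/
def rho (B : Finset ι) (ζ : Dc ι) : Mb B := fun x => ζ x.1

lemma rho_add (B : Finset ι) (ζ ζ' : Dc ι) : rho B (ζ + ζ') = rho B ζ + rho B ζ' := rfl

lemma rho_inj (B : Finset ι) {ζ ζ' : Dc ι} (h : ζ ∈ Sp B) (h' : ζ' ∈ Sp B)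
    (e : rho B ζ = rho B ζ') : ζ = ζ' := by
  unfold Sp at h h'
  rw [mem_filter] at h h'
  funext x
  by_cases hx : x ∈ B
  · exact congrFun e ⟨x, hx⟩
  · rw [h.2 x hx, h'.2 x hx]

lemma Sp_add (B : Finset ι) {ζ ζ' : Dc ι} (h : ζ ∈ Sp B) (h' : ζ' ∈ Sp B) : ζ + ζ' ∈ Sp B := by
  unfold Sp at h h' ⊢
  rw [mem_filter] at h h' ⊢
  refine ⟨mem_univ _, fun x hx => ?_⟩
  rw [Pi.add_apply, h.2 x hx, h'.2 x hx, add_zero]

lemma Qs_eq (B : Finset ι) (ζ ζ' : Dc ι) : Qs B ζ ζ' = q B (rho B ζ + rho B ζ') := by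
  unfold Qs q
  rw [← Finset.sum_coe_sort B]
  rfl

lemma add_self' (ζ : Dc ι) : ζ + ζ = 0 := by
  funext x
  refine Prod.ext ?_ ?_
  · funext i
    exact CharTwo.add_self_eq_zero _
  · funext i
    exact CharTwo.add_self_eq_zero _

lemma add_selfM (B : Finset ι) (ζ : Mb B) : ζ + ζ = 0 := by
  funext x
  refine Prod.ext ?_ ?_
  · funext i
    exact CharTwo.add_self_eq_zero _
  · funext i
    exact CharTwo.add_self_eq_zero _

lemma finrank_Mb (B : Finset ι) : Module.finrank (ZMod 2) (Mb B) = 4 * B.card := by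
  rw [Module.finrank_pi_fintype]
  simp [Module.finrank_prod, Module.finrank_pi]
  ring

/-- a totally singular space -/
lemma sing (B : Finset ι) (L : Submodule (ZMod 2) (Mb B)) (h : ∀ x ∈ L, ∀ y ∈ L, b B x y = 0) :
    Module.finrank (ZMod 2) L ≤ 2 * B.card ∧
    (Module.finrank (ZMod 2) L = 2 * B.card → ∀ η : Mb B, (∀ l ∈ L, b B l η = 0) → η ∈ L) := by
  have h1 := LinearMap.BilinForm.finrank_add_finrank_orthogonal' (B := b B) L
  rw [b_ker, inf_bot_eq, finrank_bot, add_zero, finrank_Mb] at h1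
  have h2 : L ≤ (b B).orthogonal L := by
    intro x hx
    rw [LinearMap.BilinForm.mem_orthogonal_iff]
    intro y hy
    exact h y hy x hx
  have h3 := Submodule.finrank_mono h2
  refine ⟨by omega, fun h4 η hη => ?_⟩
  have h5 : L = (b B).orthogonal L := Submodule.eq_of_le_of_finrank_eq h2 (by omega)
  rw [h5, LinearMap.BilinForm.mem_orthogonal_iff]
  intro y hy
  exact hη y hy

/-- the structure of an unlinked set -/
lemma main (B : Finset ι) (Z : Finset (Dc ι)) (hZ : Z ⊆ Sp B)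
    (hu : ∀ ζ ∈ Z, ∀ ζ' ∈ Z, Qs B ζ ζ' = 0) (z : Dc ι) (hz : z ∈ Z) :
    ∃ L : Submodule (ZMod 2) (Mb B), (∀ x ∈ L, ∀ y ∈ L, b B x y = 0) ∧ (∀ x ∈ L, q B x = 0) ∧
      (∀ ζ ∈ Z, rho B z + rho B ζ ∈ L) ∧ Z.card ≤ 2 ^ Module.finrank (ZMod 2) L ∧
      (2 ^ Module.finrank (ZMod 2) L ≤ Z.card → ∀ l ∈ L, ∃ ζ ∈ Z, l = rho B z + rho B ζ) := by
  obtain ⟨Z₀, hZ₀⟩ : ∃ Z₀ : Finset (Mb B), Z₀ = Z.image fun ζ => rho B z + rho B ζ := ⟨_, rfl⟩
  have hq : ∀ x ∈ Z₀, q B x = 0 := by
    intro x hx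
    rw [hZ₀, mem_image] at hx
    obtain ⟨ζ, hζ, rfl⟩ := hx
    rw [← Qs_eq]
    exact hu z hz ζ hζ
  have hqq : ∀ x ∈ Z₀, ∀ y ∈ Z₀, q B (x + y) = 0 := by
    intro x hx y hy
    rw [hZ₀, mem_image] at hx hy
    obtain ⟨ζ, hζ, rfl⟩ := hx
    obtain ⟨ζ', hζ', rfl⟩ := hy
    have h1 : rho B z + rho B ζ + (rho B z + rho B ζ') = rho B ζ + rho B ζ' := by
      have := add_selfM B (rho B z)
      calc rho B z + rho B ζ + (rho B z + rho B ζ') =
          (rho B z + rho B z) + (rho B ζ + rho B ζ') := by abel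
        _ = _ := by rw [this, zero_add]
    rw [h1, ← Qs_eq]
    exact hu ζ hζ ζ' hζ'
  have hb : ∀ x ∈ Z₀, ∀ y ∈ Z₀, b B x y = 0 := by
    intro x hx y hy
    have h1 := q_add B x y
    rw [hqq x hx y hy, hq x hx, hq y hy] at h1
    simpa using h1.symm
  obtain ⟨L, hL⟩ : ∃ L, L = Submodule.span (ZMod 2) (Z₀ : Set (Mb B)) := ⟨_, rfl⟩
  have hbL : ∀ x ∈ L, ∀ y ∈ L, b B x y = 0 := by
    have h1 : ∀ x ∈ Z₀, ∀ y ∈ L, b B x y = 0 := by
      intro x hx y hy
      rw [hL] at hy
      induction hy using Submodule.span_induction with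
      | mem y hy => exact hb x hx y hy
      | zero => exact map_zero _
      | add y y' _ _ h2 h3 => rw [map_add, h2, h3, add_zero]
      | smul c y _ h2 => rw [map_smul, h2, smul_zero]
    intro x hx y hy
    rw [hL] at hx
    induction hx using Submodule.span_induction with
    | mem x hx => exact h1 x hx y hy
    | zero => rw [map_zero]; rfl
    | add x x' _ _ h2 h3 =>
      rw [map_add, LinearMap.add_apply, h2, h3, add_zero]
    | smul c x _ h2 => rw [map_smul, LinearMap.smul_apply, h2, smul_zero]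
  have hqL : ∀ x ∈ L, q B x = 0 := by
    intro x hx
    have hx' := hx
    rw [hL] at hx
    induction hx using Submodule.span_induction with
    | mem x hx => exact hq x hx
    | zero => simp [q, om]
    | add x x' hx1 hx2 h2 h3 =>
      rw [← hL] at hx1 hx2
      rw [q_add, h2 hx1, h3 hx2, hbL x hx1 x' hx2]
      simp
    | smul c x hx1 h2 =>
      rw [← hL] at hx1
      rw [q_smul, h2 hx1, mul_zero]
  have hinj : Set.InjOn (fun ζ => rho B z + rho B ζ) (Z : Set (Dc ι)) := by
    intro ζ hζ ζ' hζ' h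
    exact rho_inj B (hZ hζ) (hZ hζ') (add_left_cancel h)
  have hcard : Z₀.card = Z.card := by
    rw [hZ₀]
    exact card_image_of_injOn hinj
  have hsub : (Z₀ : Set (Mb B)) ⊆ L := by
    rw [hL]
    exact Submodule.subset_span
  have hLc : (L : Set (Mb B)).ncard = 2 ^ Module.finrank (ZMod 2) L := by
    have h1 := Module.natCard_eq_pow_finrank (K := ZMod 2) (V := L)
    rw [Nat.card_zmod] at h1
    rw [← h1]
    rfl
  have hfin : (L : Set (Mb B)).Finite := Set.toFinite _
  have hle := Set.ncard_le_ncard hsub hfin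
  rw [Set.ncard_coe_finset, hcard, hLc] at hle
  refine ⟨L, hbL, hqL, ?_, hle, ?_⟩
  · intro ζ hζ
    apply hsub
    rw [Finset.mem_coe, hZ₀, mem_image]
    exact ⟨ζ, hζ, rfl⟩
  · intro h1 l hl
    have h2 : (Z₀ : Set (Mb B)) = L := by
      refine Set.eq_of_subset_of_ncard_le hsub ?_ hfin
      rw [Set.ncard_coe_finset, hcard, hLc]
      exact h1
    have h3 : l ∈ (Z₀ : Set (Mb B)) := by
      rw [h2]
      exact hl
    rw [Finset.mem_coe, hZ₀, mem_image] at h3
    obtain ⟨ζ, hζ, h4⟩ := h3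
    exact ⟨ζ, hζ, h4.symm⟩

theorem t_UNL : S_UNL := by
  intro ι _ B
  have h4 : (4 : ℕ) ^ B.card = 2 ^ (2 * B.card) := by
    rw [pow_mul]
    norm_num
  refine ⟨fun Z hZ hu => ?_, fun Z hMS => ?_⟩
  · rcases Z.eq_empty_or_nonempty with rfl | ⟨z, hz⟩
    · simp
    · obtain ⟨L, hbL, _, _, hle, _⟩ := main B Z hZ hu z hz
      rw [h4]
      exact hle.trans (Nat.pow_le_pow_right (by norm_num) (sing B L hbL).1)
  · obtain ⟨hZ, hc, hu⟩ := hMS
    have hne : Z.Nonempty := by
      rw [← card_pos, hc]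
      positivity
    obtain ⟨z, hz⟩ := hne
    obtain ⟨L, hbL, hqL, hmem, hle, hsurj⟩ := main B Z hZ hu z hz
    have hfr : Module.finrank (ZMod 2) L = 2 * B.card := by
      refine le_antisymm (sing B L hbL).1 ?_
      rw [hc, h4] at hle
      exact (Nat.pow_le_pow_iff_right (by norm_num)).1 hle
    have hsurj' := hsurj (by rw [hfr, hc, h4])
    have hperp := (sing B L hbL).2 hfr
    have hzz : rho B z + rho B z = 0 := add_selfM B _
    -- membership from the restriction
    have hback : ∀ ζ ∈ Sp B, rho B z + rho B ζ ∈ L → ζ ∈ Z := by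
      intro ζ hζ h
      obtain ⟨ζ', hζ', h1⟩ := hsurj' _ h
      have h2 := rho_inj B hζ (hZ hζ') (add_left_cancel h1)
      rw [h2]
      exact hζ'
    refine ⟨?_, ?_, ?_⟩
    · intro ζ₁ h₁ ζ₂ h₂ ζ₃ h₃
      refine hback _ (Sp_add B (Sp_add B (hZ h₁) (hZ h₂)) (hZ h₃)) ?_
      have h5 := L.add_mem (L.add_mem (hmem ζ₁ h₁) (hmem ζ₂ h₂)) (hmem ζ₃ h₃)
      have h6 : rho B z + rho B ζ₁ + (rho B z + rho B ζ₂) + (rho B z + rho B ζ₃) =
          rho B z + rho B (ζ₁ + ζ₂ + ζ₃) := by
        rw [rho_add, rho_add]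
        calc rho B z + rho B ζ₁ + (rho B z + rho B ζ₂) + (rho B z + rho B ζ₃) =
            (rho B z + rho B z) + (rho B z + (rho B ζ₁ + rho B ζ₂ + rho B ζ₃)) := by abel
          _ = _ := by rw [hzz, zero_add]
      rwa [h6] at h5
    · intro ζ hζ h
      refine hback ζ hζ (hperp _ fun l hl => ?_)
      obtain ⟨ζ', hζ', rfl⟩ := hsurj' l hl
      have h5 := q_add B (rho B z + rho B ζ') (rho B z + rho B ζ)
      have h6 : rho B z + rho B ζ' + (rho B z + rho B ζ) = rho B ζ + rho B ζ' := by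
        calc rho B z + rho B ζ' + (rho B z + rho B ζ) =
            (rho B z + rho B z) + (rho B ζ + rho B ζ') := by abel
          _ = _ := by rw [hzz, zero_add]
      have h7 : q B (rho B z + rho B ζ) = 0 := by
        rw [add_comm, ← Qs_eq]
        exact h z hz
      rw [h6, ← Qs_eq, h ζ' hζ', hqL _ (hmem ζ' hζ'), h7] at h5
      simpa using h5.symm
    · intro η hη h ζ hζ
      refine hback _ (Sp_add B (hZ hζ) hη) ?_
      have h5 : rho B η ∈ L := by
        refine hperp _ fun l hl => ?_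
        obtain ⟨ζ', hζ', rfl⟩ := hsurj' l hl
        rw [b_apply]
        have h6 := h z hz ζ' hζ'
        rw [← Finset.sum_coe_sort B] at h6
        exact h6
      have h6 := L.add_mem (hmem ζ hζ) h5
      rw [add_assoc, ← rho_add] at h6
      exact h6

end Pool.Agent.N286.GK
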